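import Mathlib
import Pool.Agent.Q64.M.Fg
import Pool.Agent.Q64.L.InstA

/-!
# Finite generation of Weil-étale motivic cohomology for the products of arbitrary varieties with
almost all abelian varieties

Let `g i` (`i` in a finite set `I`) be positive integers, `r` an integer smaller than all the `g i`
and `E` a number field.  For a prime power `q` let `S i` be the set of the characteristic
polynomials of Frobenius of the ordinary abelian varieties of dimension `g i` over the field with
`q` elements, or of all abelian varieties of dimension `g i`, or any set in between.  By Weil,
Honda and Tate its elements correspond to the isogeny classes, the first set contains
`ordinaryWeilPolys q (g i)`, and the second one is contained in `weilPolys q (g i)`.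

For almost all families `f i` in `S i` (`AlmostAll`: with the exception of a proportion
`O (q ^ (-1 / 6) log q)`, the constant depending only on `g`, `r` and `E`) the following holds for
all `s > 0`, `Q = q ^ s`, and all abelian varieties `A` over the field with `Q` elements which are
isogenous to products of powers of abelian varieties coming from the field with `q` elements, with
characteristic polynomials `f i`, and let `Z` be **any** smooth projective variety of dimension `d`
over the field with `Q` elements such that

* the eigenvalues of Frobenius on the `ℓ`-adic cohomology of `Z` and their conjugates generate a
  group of rank at most `r` modulo the group of the numbers with a power in `E` (for `r = 0`: they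
  have powers in `E`);
* the Frobenius endomorphism of `Z` satisfies on each group `H^i(A × Z, ℚ(n))` a nonzero polynomial
  with rational coefficients whose complex roots have the same property. For instance this is so if
  the motive of `Z` is finite-dimensional (Kimura) and the first condition is satisfied.

**For every `n` the following are equivalent: `L^m(A × Z)` is true for `m = n` and
`m = dim A + d - n`; `L^m(Z)` is true for `m = n - k` and `m = d - (n - k)`, for all
`0 ≤ k ≤ dim A`.** Here `L^m` is the statement that the Weil-étale motivic cohomology groups
`H^i_W(ℤ(m))` are finitely generated for all `i` (`AllFG`); for negative `m` it is true. In
particular Q1 is true for `A × Z` and all `n` if and only if it is true for `Z` and all `n`.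
Moreover `K^n(A × Z)` is true if and only if `K^(n - k)(Z)` is true for all `0 ≤ k ≤ dim A`. No
case of the conjectures of Tate, Beilinson and Parshin is assumed.

The other results in this folder show finite generation for varieties which are generated by
abelian varieties. Here `Z` is arbitrary. The pair of the weights `n` and `dim A + d - n` is
considered since the theorem of Geisser which is used (`GeisserTheorem`, known) says that `K^n` and
`K^(d - n)` imply `L^n`, and that `L^n` implies `K^n`. The statement `K^n` is used in the form
(`RegulatorIsoN`, `RegulatorIsoM`): for all prime numbers `l` and all `i` the group
`H^i(Z, ℚ(n)) ⊗ ℚ_l` is mapped isomorphically to the Galois invariants of the `l`-adic cohomology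
over an algebraic closure, and the eigenvalue `1` of Frobenius is semisimple. This is equivalent,
since the cone of the map in `K^n` is uniquely divisible, and `H^i_W(Z, ℚ(n))` is the sum of
`H^i(Z, ℚ(n))` and `H^(i - 1)(Z, ℚ(n))` (Geisser).

What is used of `A` are known theorems (`IsAbelian`): `H(A)` is generated by `H^1`, Frobenius is
diagonalizable on `H^1` (Weil), the theorem of Tate on divisors, and the nilpotence of
homologically trivial correspondences (Kimura). The theories `T l` (motivic cohomology, tensored
with `ℚ_l`) and `R l` (`l`-adic cohomology over an algebraic closure) of `Z` and `A × Z` are
modelled by `RelData`, with the formal properties in `IsTheory`: degrees, products with classes on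
`A`, push-forward to `Z`, the projection formula, the operation of the correspondences of `A` and
of the Frobenius endomorphism of `Z`. The Frobenius endomorphism of `A × Z` is the multiplication
by `Q ^ n` on `H^i(A × Z, ℚ(n))` (`IsPure`).

The proof: by a sieve (helper521), which only uses the primes that split completely in the Galois
closure of `E` - these have positive density by the theorem of Chebotarev, formalized by helper401
- almost all families are such that each pair `α`, `q / α` of roots can be exchanged by a Galois
automorphism which fixes all the other roots of all the `f i` and also all elements of `E`. It
follows that, on the generalized eigenspace of Frobenius for the power of `Q` in question in the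
cohomology or homology of the product of `A` with the other factor, the correspondence on `A` given
by the sum of the products of dual classes of products of divisors acts as the identity: the
Frobenius endomorphism of `A` satisfies there a power of the polynomial reciprocal to that of the
Frobenius on the other factor, this polynomial is prime to the one whose value on `H(A)` lies in
the part generated by divisors, and the difference of the two correspondences is nilpotent. So the
motivic cohomology of `A × Z` and the generalized eigenspaces in the cohomology of `A × Z` are the
direct sums of the products of finitely many products of divisors on `A` with those of `Z`,
compatibly with the regulators.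
-/

set_option autoImplicit false

namespace Pool.Agent.Results.MP_cb388a_ag.AlmostAllTimes

open Pool.Agent.Y156.L Pool.Agent.Q64.L Pool.Agent.Q64.M

/-- **Finite generation of the Weil-étale motivic cohomology holds for `A × Z` if and only if it
holds for `Z`, for almost all abelian varieties `A` and all smooth projective varieties of small
Frobenius rank.** -/
theorem result {I : Type} [Fintype I] (g : I → ℕ) (r : ℕ) (hr : ∀ i, r < g i)
    (E : IntermediateField ℚ ℂ) [FiniteDimensional ℚ E] :
    AlmostAll g fun q F => WeilEtaleReduces (RootsRank E r) q F :=
  countA g r hr E (fun q F => WeilEtaleReduces (RootsRank E r) q F)
    fun _ _ hq hG => weilEtaleReduces hq hG

end Pool.Agent.Results.MP_cb388a_ag.AlmostAllTimes
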