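import Mathlib
import Pool.Agent.Q64.P.Good
import Pool.Agent.Q64.M.Fg

/-!
# Finite generation of Weil-étale motivic cohomology and products with abelian varieties: small
slope deviations

Let `q = p ^ a`, let `F i` (`i` in a finite set) be CM fields and `π i` a Weil number for `q` in
`F i`, and let `f i` be monic polynomials whose complex roots are conjugates of `π i` (`IsPolyOf`),
for instance the characteristic polynomials of Frobenius of the abelian varieties in the isogeny
class of `π i` over the field with `q` elements. We suppose that

* the functions `n` on the complex embeddings of `F i` with `n (conj φ) = - n φ` are an absolutely
  irreducible representation of the automorphisms of `ℂ` (`OddAbsolutelyIrreducible`), and there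
  are no equivariant maps between those of `F i` and `F i'` for `i ≠ i'` (`Unrelated`). This is the
  generic case; the first condition is true, for example, if the Galois group of the normal closure
  of `F i` consists of all permutations of the embeddings compatible with the complex conjugation,
  or if only some automorphism exchanges one embedding with its complex conjugate and fixes all the
  others;
* no `π i` is supersingular (`HasOtherSlope`).

Let `A` be an abelian variety over the field with `Q = q ^ s` elements which is isogenous to a
product of powers of abelian varieties coming from the field with `q` elements, with characteristic
polynomials `f i`, and let `Z` be **any** smooth projective variety of dimension `d` over the field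
with `Q` elements such that

* the eigenvalues `ρ` of Frobenius on the `ℓ`-adic cohomology of `Z` and their conjugates are good
  (`GoodRoots`): for each `i`, `ρ` is unrelated to `F i` (`UnrelatedTo`: a function `n` on the
  embeddings of `F i` with `n (conj φ) = - n φ` which is invariant under all automorphisms of `ℂ`
  that fix a power of `ρ` is zero), **or** `d (ρ) < d (π i)`, **or** the weight of `ρ` is even and
  `d (ρ) < d (π i) + d (π i')` for all `i'` (`SmallDeviation`). Here `d (ρ)` is the mean of
  `(log |x| + log |ρ|) ^ 2` over all `p`-adic conjugates `x` of `ρ` (`deviation`), that is
  `(log q) ^ 2` times the mean square deviation of the slopes of `ρ` from half of its weight, and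
  `d (π i) = (log q) ^ 2 / 4` if `π i` is ordinary (second part of the theorem);
* the Frobenius endomorphism of `Z` satisfies on each group `H^i(A × Z, ℚ(n))` a nonzero polynomial
  with rational coefficients whose complex roots are good. For instance this is so if the motive of
  `Z` is finite-dimensional (Kimura) and the first condition is satisfied.

**For every `n` the following are equivalent: `L^m(A × Z)` is true for `m = n` and
`m = dim A + d - n`; `L^m(Z)` is true for `m = n - k` and `m = d - (n - k)`, for all
`0 ≤ k ≤ dim A`.** Here `L^m` is the statement that the Weil-étale motivic cohomology groups
`H^i_W(ℤ(m))` are finitely generated for all `i` (`AllFG`); for negative `m` it is true. In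
particular Q1 is true for `A × Z` and all `n` if and only if it is true for `Z` and all `n`.
Moreover `K^n(A × Z)` is true if and only if `K^(n - k)(Z)` is true for all `0 ≤ k ≤ dim A`. No
case of the conjectures of Tate, Beilinson and Parshin is assumed.

The other results in this folder show finite generation for varieties which are generated by
abelian varieties. Here `Z` is arbitrary. The pair of the weights `n` and `dim A + d - n` is
considered since the theorem of Geisser which is used (`GeisserTheorem`, known) says that `K^n` and
`K^(d - n)` imply `L^n`, and that `L^n` implies `K^n`. The statement `K^n` is used in the form
(`RegulatorIsoN`, `RegulatorIsoM`): for all prime numbers `l` and all `i` the group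
`H^i(Z, ℚ(n)) ⊗ ℚ_l` is mapped isomorphically to the Galois invariants of the `l`-adic cohomology
over an algebraic closure, and the eigenvalue `1` of Frobenius is semisimple. This is equivalent,
since the cone of the map in `K^n` is uniquely divisible, and `H^i_W(Z, ℚ(n))` is the sum of
`H^i(Z, ℚ(n))` and `H^(i - 1)(Z, ℚ(n))` (Geisser).

What is used of `A` are known theorems (`IsAbelian`): `H(A)` is generated by `H^1`, Frobenius is
diagonalizable on `H^1` (Weil), the theorem of Tate on divisors, and the nilpotence of
homologically trivial correspondences (Kimura). The theories `T l` (motivic cohomology, tensored
with `ℚ_l`) and `R l` (`l`-adic cohomology over an algebraic closure) of `Z` and `A × Z` are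
modelled by `RelData`, with the formal properties in `IsTheory`: degrees, products with classes on
`A`, push-forward to `Z`, the projection formula, the operation of the correspondences of `A` and
of the Frobenius endomorphism of `Z`. The Frobenius endomorphism of `A × Z` is the multiplication
by `Q ^ n` on `H^i(A × Z, ℚ(n))` (`IsPure`).

Examples, for `s = 1` and ordinary `π i`. All `ρ` of even weight `2 v` with slopes between
`v - 1 / √2` and `v + 1 / √2` are good, and all `ρ` of any weight `w` with slopes between
`(w - 1) / 2` and `(w + 1) / 2`. In general all `ρ` of weight `2 v` are good whose degree over `ℚ`
is more than `2 ∑ (s - v) ^ 2`, the sum over the slopes `s` of all conjugates; for the second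
cohomology of a surface of geometric genus `g` the Newton polygon lies above the Hodge polygon, and
it is sufficient that `ρ` is `q` times a root of unity or has degree more than `4 g` (more than
four for K3 surfaces). The conditions of this kind do not exclude any relation between `A` and the
other factor: `ℚ(ρ)` may be contained in a field `F i`, or in its Galois closure.

Relation to other results. `AllCMTypesTimes` (this folder) is the theorem for the abelian varieties
of almost all slope types of all CM fields, if all eigenvalues of Frobenius on the other factor are
unrelated to the fields. New here are the second and the third alternative, and the theorem is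
about each single abelian variety with absolutely irreducible fields. The criterion for slopes is
the one of `SmallSlopeDeviation` (MP_0f183b_ag, helper70), where it is applied to the Tate
conjecture.

The proof. A multiplicative relation between `ρ`, a power of `q` and a product of conjugates of the
`π i` gives, for each automorphism `σ` of a Galois closure, the linear relation
`s (σ ρ) - w / 2 = ∑ x, n x (s (σ x) - 1 / 2)` between slopes, up to signs, where the sum is over
one embedding `x` of each conjugate pair and `n x` is the difference of the multiplicities of `x`
and of its conjugate. The second moments of the slopes are an invariant form on the odd functions;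
it is real valued, but all its compositions with rational functionals are rational invariant forms,
and so the slopes at different pairs are uncorrelated, by Schur's lemma. Hence
`d (ρ) = ∑ x, (n x) ^ 2 d (π x)`. If the weight of `ρ` is even, so is the sum of all
multiplicities, and a single `n x = ± 1` is impossible. So all `n x` are zero (`noRel_good`, by
helper70). It follows that, on the generalized eigenspace of Frobenius for the power of `Q` in
question in the cohomology or homology of the product of `A` with the other factor, the
correspondence on `A` given by the sum of the products of dual classes of products of divisors acts
as the identity: the Frobenius endomorphism of `A` satisfies there a power of the polynomial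
reciprocal to that of the Frobenius on the other factor, this polynomial is prime to the one whose
value on `H(A)` lies in the part generated by divisors, and the difference of the two
correspondences is nilpotent. So the motivic cohomology of `A × Z` and the generalized eigenspaces
in the cohomology of `A × Z` are the direct sums of the products of finitely many products of
divisors on `A` with those of `Z`, compatibly with the regulators.
-/

set_option autoImplicit false

namespace Pool.Agent.Results.MP_cb388a_ag.SmallSlopeDeviation

open NumberField Module Polynomial Pool.Agent.Y137.MV Pool.Agent.Y137.SL Pool.Agent.Y1.CT
  Pool.Agent.Q70.SQ Pool.Agent.Q64.P Pool.Agent.Q64.M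

/-- **`L^n` and `L^(d - n)` hold for `A × Z`, `d = dim (A × Z)`, if and only if they hold for `Z`
in the weights `n - k`, `0 ≤ k ≤ dim A`, for the abelian varieties `A` over finite fields with
absolutely irreducible, unrelated CM fields and no supersingular part, and all smooth projective
varieties `Z` each of whose Frobenius eigenvalues is unrelated to these fields or has small mean
square slope deviation.** -/
theorem result :
    (∀ (p : ℕ) [Fact p.Prime] (a : ℕ) (I : Type) [Fintype I] (F : I → Type)
      [∀ i, Field (F i)] [∀ i, NumberField (F i)] [∀ i, IsCMField (F i)] (π : ∀ i, F i)
      (f : I → ℤ[X]), 0 < a →
      (∀ i, π i * IsCMField.complexConj (F i) (π i) = (p : F i) ^ a) →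
      (∀ i, OddAbsolutelyIrreducible (F i)) →
      (∀ i i', i ≠ i' → Pool.Agent.Y137.MV.Unrelated (F i) (F i')) →
      (∀ i, HasOtherSlope p a (π i)) → (∀ i, IsPolyOf (π i) (f i)) →
      WeilEtaleReduces (GoodRoots p a π) (p ^ a) f) ∧
    (∀ (p : ℕ) [Fact p.Prime] (a : ℕ) (F : Type) [Field F] [NumberField F] (π : F),
      IsOrdinary p a π → weilDeviation p a π = (a * Real.log p) ^ 2 / 4) := by
  refine ⟨?_, ?_⟩
  · intro p _ a I _ F _ _ _ π f ha hw habs hun hns hf
    exact weilEtaleReduces (Nat.one_lt_pow ha.ne' (Fact.out : p.Prime).one_lt)
      (good_small ha hw habs hun hns f hf)
  · intro p _ a F _ _ π h
    exact weilDeviation_ordinary h

end Pool.Agent.Results.MP_cb388a_ag.SmallSlopeDeviation
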