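import Pool.Agent.Q193.LT.Cyc

/-!
# Weil-étale motivic cohomology and the cubic hypersurfaces `T(x, y, z) = 1`

Let `k` be a finite field and `ℓ` a prime number different from the characteristic of `k`. The groups
`H^j_W(Y, ℚ(n)) ⊗ ℚ_ℓ` (Weil-étale motivic cohomology) and `H^j_cont(Y, ℚ_ℓ(n))` (continuous étale
cohomology) are additive functors of the Chow motive with rational coefficients of `Y`, and there is a
natural map between them. For a separated scheme `X` of finite type over `k` let `W(X)` be its weight
complex (Gillet, Soulé; Bondarko), a bounded complex of Chow motives, with `W(X) = h(X)` for smooth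
projective `X`. For `w, n, m ∈ ℤ` let

* `(C w).A (n, m) X = H^m(H^{2n-w}_W(W(X), ℚ(n)) ⊗ ℚ_ℓ)`;
* `(C w).B (n, m) X = H^m(H^{2n-w}_cont(W(X), ℚ_ℓ(n)))`,

and let `(C w).ρ` be the map between them. For smooth projective `Y` the groups for `m ≠ 0` are zero.

`L n Y` is the statement that the groups `H^i_W(Y, ℤ(n))` are finitely generated for all `i`. For a smooth
projective `Y`, it is true for all `n` if and only if the maps
`H^j_W(Y, ℚ(n)) ⊗ ℚ_ℓ → H^j_cont(Y, ℚ_ℓ(n))` are isomorphisms for all `j` and `n` (Geisser; hypothesis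
`geisser`). It is true for the point and for curves (hypothesis `curves`).

**Theorem.** (1) The groups `H^i_W(Y, ℤ(n))` are finitely generated for all smooth projective `Y` over
`k`, all `n ≥ 0` and all `i` if and only if the maps
`H^m(H^j_W(W(Z), ℚ(n)) ⊗ ℚ_ℓ) → H^m(H^j_cont(W(Z), ℚ_ℓ(n)))` are isomorphisms for all `m, j, n` and the
smooth affine cubic hypersurfaces `Z : T(x, y, z) = 1` of all trilinear forms `T` over `k`. If `k` is a
prime field, it is enough to consider the hypersurfaces `∑_{(i, j, l) ∈ H} x_i y_j z_l = 1` of the finite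
sets `H` of triples.

(2) For all `d`, they are finitely generated for all smooth projective `Y` of dimension at most `d` over
`k`, all `n ≥ 0` and all `i` if and only if the maps are isomorphisms for the hypersurfaces
`T(x, y, z) = 1` such that one of the three blocks of variables has at most `d + 2` variables (the other
two blocks are arbitrary).

(3) Unconditionally, the maps are isomorphisms for the hypersurfaces `T(x, y, z) = 1` such that one of the
three blocks of variables has at most three variables.
-/

set_option autoImplicit false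

open CategoryTheory CategoryTheory.Limits AlgebraicGeometry Pool.Agent.Y116.UV Pool.Agent.Z125.UN
  Pool.Agent.Q193.LT

universe w

namespace Pool.Agent.Results.MP_cb388a_ag.WeilEtaleCubics

variable {k : Type} [Field k] {ℓ : ℕ} [Fact ℓ.Prime]

/-- The maps are isomorphisms for all hypersurfaces `T = 1` with a block of at most `m` variables. -/
def Forms (C : ℤ → PairData.{w} k (ℤ × ℤ) ℚ_[ℓ]) (m : ℕ) : Prop :=
  ∀ (a b c : ℕ) (T : Fin a → Fin b → Fin c → k), (a ≤ m ∨ b ≤ m ∨ c ≤ m) →
    ∀ w, BijAll (C w) (hypS T)

/-- `L n Y` for all `n` and all smooth projective schemes of dimension at most `d`. -/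
def Dim (L : ℕ → Sch k → Prop) (d : ℕ) : Prop :=
  ∀ Y : Sch k, SmoothProj Y → topologicalKrullDim Y.left ≤ d → ∀ n, L n Y

/-- **Weil-étale cohomology and cubic hypersurfaces.** See the explanations above. -/
theorem result [Finite k] (_hℓ : (ℓ : k) ≠ 0) {C : ℤ → PairData.{w} k (ℤ × ℤ) ℚ_[ℓ]}
    (hC : ∀ w, IsWeightPair (C w)) (hg : ∀ w, WeightGen (C w))
    (point : ∀ w, BijAll (C w) (aff k k)) {L : ℕ → Sch k → Prop}
    (geisser : ∀ Y : Sch k, SmoothProj Y → ((∀ n, L n Y) ↔ ∀ w, BijAll (C w) Y))
    (curves : Dim L 1) :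
    ((∀ Y : Sch k, SmoothProj Y → ∀ n, L n Y) ↔
      ∀ (a b c : ℕ) (T : Fin a → Fin b → Fin c → k), ∀ w, BijAll (C w) (hypS T)) ∧
    (Frac k → ((∀ Y : Sch k, SmoothProj Y → ∀ n, L n Y) ↔
      ∀ (a b c : ℕ) (H : Finset (Fin a × Fin b × Fin c)), ∀ w, BijAll (C w) (tripS k H))) ∧
    (∀ d : ℕ, Dim L d ↔ Forms C (d + 2)) ∧ Forms C 3 := by
  have h1 : ∀ d : ℕ, Dim L d ↔ Forms C (d + 2) := fun d => by
    constructor
    · intro h a b c T hm w
      exact (wg_dim (hg w) (hC w) (point w) d).mp (fun Y hY hn => (geisser Y hY).mp (h Y hY hn) w)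
        a b c T hm
    · intro h Y hY hn
      exact (geisser Y hY).mpr fun w => (wg_dim (hg w) (hC w) (point w) d).mpr
        (fun a b c T hm => h a b c T hm w) Y hY hn
  refine ⟨?_, ?_, h1, (h1 1).mp curves⟩
  · constructor
    · intro h a b c T w
      exact (wg_all (hg w) (hC w) (point w)).mp (fun Y hY => (geisser Y hY).mp (h Y hY) w) a b c T
    · intro h Y hY
      exact (geisser Y hY).mpr fun w => (wg_all (hg w) (hC w) (point w)).mpr
        (fun a b c T => h a b c T w) Y hY
  · intro hF
    constructor
    · intro h a b c H w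
      exact (wg_graph (hg w) (hC w) (point w) hF).mp (fun Y hY => (geisser Y hY).mp (h Y hY) w)
        a b c H
    · intro h Y hY
      exact (geisser Y hY).mpr fun w => (wg_graph (hg w) (hC w) (point w) hF).mpr
        (fun a b c H => h a b c H w) Y hY

end Pool.Agent.Results.MP_cb388a_ag.WeilEtaleCubics
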